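import Pool.Agent.U79.MO.LA
import Pool.Agent.U79.GZ.Stm

/-!
# Project GZ (helper79), part IK: the mean number of the independent tuples of solutions

`t_IK : Pool.Agent.U79.GZ.S_IK`. The number of independent `k`-tuples of solutions for a completion `α` is
the number of the tuples `z` in the space `ZS` of the solutions of the rows of `U1`, with independent
second components, satisfying the rows of `J1`. For such a tuple the number of completions is a character
sum over the alternating matrices (`rows_count`); the sum of the characters over all the tuples is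
estimated by the radical of the form (`assemble`, `rad_card`, `ker_card`).
-/

set_option autoImplicit false
set_option linter.unusedVariables false
set_option linter.unusedSimpArgs false

open scoped Classical

namespace Pool.Agent.U979.GZ

open Finset hiding ext
open Pool.Agent.Y703.CQ (prs ext)
open Pool.Agent.U79.MO (SolA ext_add ext_single rowH rowH_single rowU rowU_surj)
open Pool.Agent.U79.GZ (Ik ns Hy dd S_IK)

theorem z2' (a : ZMod 2) : a = 0 ∨ a = 1 := by
  revert a
  decide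

/-- the nontrivial character of `ZMod 2` -/
noncomputable def chi (a : ZMod 2) : ℝ := if a = 0 then 1 else -1

theorem chi_zero : chi 0 = 1 := if_pos rfl

theorem chi_one : chi 1 = -1 := if_neg (by decide)

theorem chi_add (a b : ZMod 2) : chi (a + b) = chi a * chi b := by
  rcases z2' a with rfl | rfl <;> rcases z2' b with rfl | rfl
  · rw [add_zero, chi_zero, one_mul]
  · rw [zero_add, chi_zero, one_mul]
  · rw [add_zero, chi_zero, mul_one]
  · have : (1 : ZMod 2) + 1 = 0 := by decide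
    rw [this, chi_zero, chi_one]
    norm_num

theorem abs_chi (a : ZMod 2) : |chi a| = 1 := by
  rcases z2' a with rfl | rfl
  · rw [chi_zero, abs_one]
  · rw [chi_one, abs_neg, abs_one]

theorem chi_zero' : chi 0 = 1 := chi_zero

attribute [local irreducible] chi

theorem sum_chi {V : Type} [AddCommGroup V] [Fintype V] (φ : V → ZMod 2)
    (hφ : ∀ v w, φ (v + w) = φ v + φ w) :
    ∑ v, chi (φ v) = if ∀ v, φ v = 0 then (Fintype.card V : ℝ) else 0 := by
  split_ifs with h
  · have : ∀ v ∈ (univ : Finset V), chi (φ v) = 1 := fun v _ => by rw [h v, chi_zero]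
    rw [Finset.sum_congr rfl this, Finset.sum_const, Finset.card_univ, nsmul_eq_mul, mul_one]
  · push Not at h
    obtain ⟨v₀, hv₀⟩ := h
    have hv1 : φ v₀ = 1 := (z2' (φ v₀)).resolve_left hv₀
    have h1 : ∑ v, chi (φ (v + v₀)) = ∑ v, chi (φ v) :=
      Equiv.sum_comp (Equiv.addRight v₀) (fun v => chi (φ v))
    have h2 : ∑ v, chi (φ (v + v₀)) = - ∑ v, chi (φ v) := by
      rw [← Finset.sum_neg_distrib]
      refine Finset.sum_congr rfl fun v _ => ?_
      rw [hφ, chi_add, hv1, chi_one]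
      ring
    linarith

theorem sum_chi_dot {I : Type} [Fintype I] [DecidableEq I] (w : I → ZMod 2) :
    ∑ l : I → ZMod 2, chi (∑ i, l i * w i) = if w = 0 then (2 : ℝ) ^ Fintype.card I else 0 := by
  rw [sum_chi (fun l : I → ZMod 2 => ∑ i, l i * w i) (by
    intro v v'
    show ∑ i, (v i + v' i) * w i = _
    rw [← Finset.sum_add_distrib]
    exact Finset.sum_congr rfl fun i _ => add_mul _ _ _)]
  have : (∀ l : I → ZMod 2, ∑ i, l i * w i = 0) ↔ w = 0 := by
    constructor
    · intro h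
      funext i
      have h1 := h (Pi.single i 1)
      have h2 : ∀ j ∈ (univ : Finset I), (Pi.single i (1 : ZMod 2) : I → ZMod 2) j * w j =
          if j = i then w j else 0 := by
        intro j _
        rw [Pi.single_apply]
        split_ifs <;> simp
      rw [Finset.sum_congr rfl h2, Finset.sum_ite_eq' univ, if_pos (Finset.mem_univ _)] at h1
      exact h1
    · rintro rfl l
      exact Finset.sum_eq_zero fun i _ => by simp
  by_cases hw : w = 0
  · rw [if_pos (this.2 hw), if_pos hw, Fintype.card_fun, ZMod.card]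
    push_cast
    rfl
  · rw [if_neg (fun h => hw (this.1 h)), if_neg hw]

/-- symmetric sums with zero diagonal vanish -/
theorem sum_alt {I : Type} [Fintype I] (F : I → I → ZMod 2) (h1 : ∀ i s, F i s = F s i)
    (h0 : ∀ i, F i i = 0) : ∑ i, ∑ s, F i s = 0 := by
  rw [← Fintype.sum_prod_type' F]
  refine Finset.sum_involution (fun p _ => (p.2, p.1)) ?_ ?_ ?_ ?_
  · intro p _
    show F p.1 p.2 + F p.2 p.1 = 0
    rw [h1 p.2 p.1]
    have : ∀ x : ZMod 2, x + x = 0 := by decide
    exact this _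
  · intro p _ hp he
    apply hp
    have : p.1 = p.2 := (congrArg Prod.fst he).symm
    rw [this, h0]
  · intro p _
    exact Finset.mem_univ _
  · intro p _
    rfl

section
variable {Z : Type} [AddCommGroup Z] [Module (ZMod 2) Z] [Fintype Z]

theorem fiber_card' {V W : Type} [AddCommGroup V] [AddCommGroup W] [Fintype V] [Fintype W]
    [DecidableEq W]
    (φ : V →+ W) (h : Function.Surjective φ) (w : W) :
    (univ.filter fun v => φ v = w).card * Fintype.card W = Fintype.card V := by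
  have h1 : (univ : Finset V).card = ∑ w' ∈ (univ : Finset W), (univ.filter fun v => φ v = w').card :=
    Finset.card_eq_sum_card_fiberwise fun v _ => Finset.mem_coe.2 (Finset.mem_univ _)
  have h2 : ∀ w' ∈ (univ : Finset W), (univ.filter fun v => φ v = w').card =
      (univ.filter fun v => φ v = w).card := by
    intro w' _
    exact AddMonoidHom.card_fiber_eq_of_mem_range φ (h w') (h w)
  rw [Finset.sum_congr rfl h2, Finset.sum_const, smul_eq_mul, Finset.card_univ, Finset.card_univ] at h1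
  rw [h1, mul_comm]

/-- tuples with a linear combination in a given set -/
theorem cnt_comb {k : ℕ} (a : Fin k → ZMod 2) (ha : a ≠ 0) (K : Finset Z) :
    (univ.filter fun z : Fin k → Z => ∑ i, a i • z i ∈ K).card * Fintype.card Z =
      K.card * Fintype.card Z ^ k := by
  let φ : (Fin k → Z) →+ Z :=
    { toFun := fun z => ∑ i, a i • z i
      map_zero' := by simp
      map_add' := fun z w => by
        rw [← Finset.sum_add_distrib]
        exact Finset.sum_congr rfl fun i _ => smul_add _ _ _ }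
  have hφ : ∀ z, φ z = ∑ i, a i • z i := fun _ => rfl
  have hs : Function.Surjective φ := by
    obtain ⟨i, hi⟩ := Function.ne_iff.1 ha
    have hi1 : a i = 1 := (z2' (a i)).resolve_left hi
    intro w
    refine ⟨Pi.single i w, ?_⟩
    rw [hφ]
    have h2 : ∀ j ∈ (univ : Finset (Fin k)), a j • (Pi.single i w : Fin k → Z) j =
        if j = i then a j • w else 0 := by
      intro j _
      rw [Pi.single_apply]
      split_ifs <;> simp
    rw [Finset.sum_congr rfl h2, Finset.sum_ite_eq' univ, if_pos (Finset.mem_univ _), hi1, one_smul]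
  have h1 : (univ.filter fun z : Fin k → Z => ∑ i, a i • z i ∈ K).card =
      ∑ w ∈ K, (univ.filter fun z => φ z = w).card := by
    rw [Finset.card_eq_sum_card_fiberwise (s := univ.filter fun z : Fin k → Z => ∑ i, a i • z i ∈ K)
      (f := fun z : Fin k → Z => φ z) (t := K)
      (fun z hz => Finset.mem_coe.2 (Finset.mem_filter.1 (Finset.mem_coe.1 hz)).2)]
    refine Finset.sum_congr rfl fun w hw => ?_
    congr 1
    ext z
    simp only [Finset.mem_filter, Finset.mem_univ, true_and]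
    constructor
    · exact fun h => h.2
    · intro h
      refine ⟨?_, h⟩
      rw [← hφ, h]
      exact hw
  rw [h1, Finset.sum_mul]
  have h2 : ∀ w ∈ K, (univ.filter fun z => φ z = w).card * Fintype.card Z = Fintype.card Z ^ k := by
    intro w _
    rw [fiber_card' φ hs w, Fintype.card_fun, Fintype.card_fin]
  rw [Finset.sum_congr rfl h2, Finset.sum_const, smul_eq_mul]

/-- the exponent -/
def Ex {k : ℕ} (β : Z →ₗ[ZMod 2] Z →ₗ[ZMod 2] ZMod 2) (c : Fin k → Fin k → ZMod 2)
    (z : Fin k → Z) : ZMod 2 := ∑ i, ∑ s, c i s * β (z s) (z i)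

theorem Ex_add {k : ℕ} (β : Z →ₗ[ZMod 2] Z →ₗ[ZMod 2] ZMod 2) (c : Fin k → Fin k → ZMod 2)
    (hc : ∀ i s, c i s = c s i) (h0 : ∀ i, c i i = 0) (z : Fin k → Z) (i₀ : Fin k) (t : Z) :
    Ex β c (z + (Pi.single i₀ t : Fin k → Z)) = Ex β c z + (β (∑ s, c i₀ s • z s) t + β t (∑ s, c i₀ s • z s)) := by
  unfold Ex
  have h1 : ∀ i s, c i s * β ((z + (Pi.single i₀ t : Fin k → Z)) s)
      ((z + (Pi.single i₀ t : Fin k → Z)) i) =
      c i s * β (z s) (z i) + (if i = i₀ then c i s * β (z s) t else 0) +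
      (if s = i₀ then c i s * β t (z i) else 0) +
      (if i = i₀ then if s = i₀ then c i s * β t t else 0 else 0) := by
    intro i s
    simp only [Pi.add_apply, Pi.single_apply]
    by_cases hi : i = i₀ <;> by_cases hs : s = i₀
    · simp only [hi, hs, if_true, map_add, LinearMap.add_apply]
      ring
    · simp only [hi, hs, if_true, if_false, add_zero, map_add, LinearMap.add_apply]
      ring
    · simp only [hi, hs, if_true, if_false, add_zero, map_add, LinearMap.add_apply]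
      ring
    · simp only [hi, hs, if_false, add_zero]
  simp only [h1, Finset.sum_add_distrib]
  have e1 : ∑ i, ∑ s, (if i = i₀ then c i s * β (z s) t else 0) = β (∑ s, c i₀ s • z s) t := by
    rw [Finset.sum_comm]
    simp only [Finset.sum_ite_eq', Finset.mem_univ, if_true]
    rw [map_sum, LinearMap.sum_apply]
    refine Finset.sum_congr rfl fun s _ => ?_
    rw [map_smul, LinearMap.smul_apply, smul_eq_mul]
  have e2 : ∑ i, ∑ s, (if s = i₀ then c i s * β t (z i) else 0) = β t (∑ s, c i₀ s • z s) := by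
    simp only [Finset.sum_ite_eq', Finset.mem_univ, if_true]
    rw [map_sum]
    refine Finset.sum_congr rfl fun s _ => ?_
    rw [map_smul, smul_eq_mul, hc]
  have e3 : ∑ i, ∑ s, (if i = i₀ then if s = i₀ then c i s * β t t else 0 else 0) = 0 := by
    refine Finset.sum_eq_zero fun i _ => Finset.sum_eq_zero fun s _ => ?_
    split_ifs with h h'
    · rw [h, h', h0, zero_mul]
    · rfl
    · rfl
  rw [e1, e2, e3]
  ring

theorem Ex_eq {k : ℕ} (β : Z →ₗ[ZMod 2] Z →ₗ[ZMod 2] ZMod 2) (c : Fin k → Fin k → ZMod 2)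
    (z : Fin k → Z) : Ex β c z = ∑ i, ∑ s, c i s * β (z s) (z i) := rfl

theorem Ex_zero {k : ℕ} (β : Z →ₗ[ZMod 2] Z →ₗ[ZMod 2] ZMod 2) (z : Fin k → Z) :
    Ex β 0 z = 0 := by
  unfold Ex
  refine Finset.sum_eq_zero fun i _ => Finset.sum_eq_zero fun s _ => ?_
  show (0 : ZMod 2) * _ = 0
  rw [zero_mul]

attribute [local irreducible] Ex

/-- the character sums of the alternating forms -/
theorem char_alt {k : ℕ} (β : Z →ₗ[ZMod 2] Z →ₗ[ZMod 2] ZMod 2) (c : Fin k → Fin k → ZMod 2)
    (hc : ∀ i s, c i s = c s i) (h0 : ∀ i, c i i = 0) (hne : c ≠ 0) :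
    |∑ z : Fin k → Z, chi (Ex β c z)| * Fintype.card Z ≤
      ((univ.filter fun w : Z => ∀ t, β w t + β t w = 0).card : ℝ) * (Fintype.card Z : ℝ) ^ k := by
  obtain ⟨i₀, hi₀⟩ := Function.ne_iff.1 hne
  set R := univ.filter fun w : Z => ∀ t, β w t + β t w = 0 with hR
  have h1 : ∀ t : Z, ∑ z : Fin k → Z, chi (Ex β c z) =
      ∑ z : Fin k → Z, chi (Ex β c z) *
        chi (β (∑ s, c i₀ s • z s) t + β t (∑ s, c i₀ s • z s)) := by
    intro t
    have h := Equiv.sum_comp (Equiv.addRight (Pi.single i₀ t : Fin k → Z)) (fun z => chi (Ex β c z))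
    rw [← h]
    refine Finset.sum_congr rfl fun z _ => ?_
    rw [Equiv.coe_addRight, Ex_add β c hc h0, chi_add]
  have h2 : (Fintype.card Z : ℝ) * ∑ z : Fin k → Z, chi (Ex β c z) =
      ∑ z : Fin k → Z, chi (Ex β c z) *
        (if (∑ s, c i₀ s • z s) ∈ R then (Fintype.card Z : ℝ) else 0) := by
    have h3 : (Fintype.card Z : ℝ) * ∑ z : Fin k → Z, chi (Ex β c z) =
        ∑ t : Z, ∑ z : Fin k → Z, chi (Ex β c z) := by
      rw [Finset.sum_const, Finset.card_univ, nsmul_eq_mul]
    rw [h3, Finset.sum_congr rfl fun t _ => h1 t, Finset.sum_comm]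
    refine Finset.sum_congr rfl fun z _ => ?_
    rw [← Finset.mul_sum, sum_chi (fun t => β (∑ s, c i₀ s • z s) t + β t (∑ s, c i₀ s • z s)) (by
      intro v w
      rw [map_add, map_add, LinearMap.add_apply]
      ring)]
    congr 1
    by_cases h4 : ∀ t, β (∑ s, c i₀ s • z s) t + β t (∑ s, c i₀ s • z s) = 0
    · rw [if_pos h4, if_pos (Finset.mem_filter.2 ⟨Finset.mem_univ _, h4⟩)]
    · rw [if_neg h4, if_neg fun h5 => h4 (Finset.mem_filter.1 h5).2]
  have hZ : (0 : ℝ) < Fintype.card Z := by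
    have : 0 < Fintype.card Z := Fintype.card_pos_iff.2 ⟨0⟩
    exact_mod_cast this
  have h3 : (Fintype.card Z : ℝ) * |∑ z : Fin k → Z, chi (Ex β c z)| ≤
      (Fintype.card Z : ℝ) * ((univ.filter fun z : Fin k → Z => ∑ s, c i₀ s • z s ∈ R).card : ℝ) := by
    rw [← abs_of_pos hZ, ← abs_mul, abs_of_pos hZ, h2]
    refine (Finset.abs_sum_le_sum_abs _ _).trans ?_
    have h4 : ∀ z ∈ (univ : Finset (Fin k → Z)), |chi (Ex β c z) *
        (if (∑ s, c i₀ s • z s) ∈ R then (Fintype.card Z : ℝ) else 0)| =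
        if (∑ s, c i₀ s • z s) ∈ R then (Fintype.card Z : ℝ) else 0 := by
      intro z _
      rw [abs_mul, abs_chi, one_mul]
      split_ifs
      · exact abs_of_pos hZ
      · exact abs_zero
    rw [Finset.sum_congr rfl h4, ← Finset.sum_filter, Finset.sum_const, nsmul_eq_mul, mul_comm]
  have h4 := le_of_mul_le_mul_left h3 hZ
  have h5 := cnt_comb (Z := Z) (c i₀) hi₀ R
  have h6 : ((univ.filter fun z : Fin k → Z => ∑ s, c i₀ s • z s ∈ R).card : ℝ) *
      Fintype.card Z = (R.card : ℝ) * (Fintype.card Z : ℝ) ^ k := by exact_mod_cast h5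
  rw [← h6]
  exact mul_le_mul_of_nonneg_right h4 hZ.le

/-- the character sums of the alternating forms, with a bound for the radical -/
theorem char_alt' {k : ℕ} (β : Z →ₗ[ZMod 2] Z →ₗ[ZMod 2] ZMod 2) (c : Fin k → Fin k → ZMod 2)
    (hc : ∀ i s, c i s = c s i) (h0 : ∀ i, c i i = 0) (hne : c ≠ 0) (R : Finset Z)
    (hR : ∀ w, (∀ t, β w t + β t w = 0) → w ∈ R) :
    |∑ z : Fin k → Z, chi (Ex β c z)| * Fintype.card Z ≤
      (R.card : ℝ) * (Fintype.card Z : ℝ) ^ k := by
  refine (char_alt β c hc h0 hne).trans (mul_le_mul_of_nonneg_right ?_ (by positivity))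
  exact Nat.cast_le.2 (Finset.card_le_card fun w hw => hR w (Finset.mem_filter.1 hw).2)

/-- tuples with dependent images -/
theorem dep_card {k : ℕ} {J : Type} (φ : Z →ₗ[ZMod 2] (J → ZMod 2)) (D : Finset (Fin k → Z))
    (K : Finset Z) (hD : ∀ z ∈ D, ¬ LinearIndependent (ZMod 2) fun i => φ (z i))
    (hK : ∀ w, φ w = 0 → w ∈ K) :
    (D.card : ℝ) * Fintype.card Z ≤ 2 ^ k * (K.card : ℝ) * (Fintype.card Z : ℝ) ^ k := by
  have h1 : D ⊆ (univ.filter fun a : Fin k → ZMod 2 => a ≠ 0).biUnion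
        fun a => univ.filter fun z : Fin k → Z => ∑ i, a i • z i ∈ K := by
    intro z hz
    have hz := hD z hz
    rw [Fintype.not_linearIndependent_iff] at hz
    obtain ⟨a, ha, i, hi⟩ := hz
    refine Finset.mem_biUnion.2 ⟨a, Finset.mem_filter.2 ⟨Finset.mem_univ _, fun h => hi (by rw [h]; rfl)⟩,
      Finset.mem_filter.2 ⟨Finset.mem_univ _, hK _ ?_⟩⟩
    rw [map_sum, ← ha]
    exact Finset.sum_congr rfl fun i _ => by rw [map_smul]
  have h2 := (Finset.card_le_card h1).trans Finset.card_biUnion_le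
  have h3 : D.card * Fintype.card Z ≤ 2 ^ k * K.card * Fintype.card Z ^ k := by
    refine (Nat.mul_le_mul_right _ h2).trans ?_
    rw [Finset.sum_mul]
    have h4 : ∀ a ∈ (univ.filter fun a : Fin k → ZMod 2 => a ≠ 0),
        (univ.filter fun z : Fin k → Z => ∑ i, a i • z i ∈ K).card * Fintype.card Z =
          K.card * Fintype.card Z ^ k := fun a ha => cnt_comb a (Finset.mem_filter.1 ha).2 K
    rw [Finset.sum_congr rfl h4, Finset.sum_const, smul_eq_mul, mul_assoc]
    refine Nat.mul_le_mul_right _ ?_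
    refine (Finset.card_le_univ _).trans ?_
    rw [Fintype.card_fun, ZMod.card, Fintype.card_fin]
  exact_mod_cast h3

/-- the alternating matrices -/
noncomputable def Alt (k : ℕ) : Finset (Fin k → Fin k → ZMod 2) :=
  univ.filter fun c => (∀ i s, c i s = c s i) ∧ ∀ i, c i i = 0

theorem alt_card (k : ℕ) : (Alt k).card * 2 ^ k ≤ 2 ^ (k ^ 2) := by
  have h : (2 : ℕ) ^ (k ^ 2) = Fintype.card (Fin k → Fin k → ZMod 2) := by
    rw [Fintype.card_fun, Fintype.card_fun, ZMod.card, Fintype.card_fin, sq, pow_mul]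
  have h' : (2 : ℕ) ^ k = (univ : Finset (Fin k → ZMod 2)).card := by
    rw [Finset.card_univ, Fintype.card_fun, ZMod.card, Fintype.card_fin]
  rw [h, h', ← Finset.card_product, ← Finset.card_univ]
  refine Finset.card_le_card_of_injOn
    (fun p i s => p.1 i s + if i = s then p.2 i else 0) (fun _ _ => Finset.mem_coe.2 (Finset.mem_univ _)) ?_
  rintro ⟨c, d⟩ hx ⟨c', d'⟩ hx' he
  have hx := (Finset.mem_filter.1 (Finset.mem_product.1 (Finset.mem_coe.1 hx)).1).2
  have hx' := (Finset.mem_filter.1 (Finset.mem_product.1 (Finset.mem_coe.1 hx')).1).2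
  have hx2 : ∀ i, c i i = 0 := hx.2
  have hx2' : ∀ i, c' i i = 0 := hx'.2
  have he : ∀ i s, c i s + (if i = s then d i else 0) = c' i s + if i = s then d' i else 0 :=
    fun i s => congrFun (congrFun he i) s
  have hd : d = d' := by
    funext i
    have h1 := he i i
    rw [if_pos rfl, if_pos rfl, hx2 i, hx2' i, zero_add, zero_add] at h1
    exact h1
  have hcc : c = c' := by
    funext i s
    have h1 := he i s
    rw [hd] at h1
    exact add_right_cancel h1
  rw [hd, hcc]

/-- **the assembly** -/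
theorem assemble {k : ℕ} {J : Type} (β : Z →ₗ[ZMod 2] Z →ₗ[ZMod 2] ZMod 2)
    (φ : Z →ₗ[ZMod 2] (J → ZMod 2)) (T : Finset (Fin k → Z))
    (hT : ∀ z, z ∈ T ↔ LinearIndependent (ZMod 2) fun i => φ (z i)) (R K : Finset Z)
    (hR : ∀ w, (∀ t, β w t + β t w = 0) → w ∈ R) (hK : ∀ w, φ w = 0 → w ∈ K)
    (Q : ℝ) (hQd : Q = Fintype.card Z) :
    |(∑ c ∈ Alt k, ∑ z ∈ T, chi (Ex β c z)) - Q ^ k| * Q ≤
      (Alt k).card * (((R.card : ℝ) + 2 ^ k * K.card) * Q ^ k) := by
  have hpos : 0 < Q := by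
    rw [hQd]
    have : 0 < Fintype.card Z := Fintype.card_pos_iff.2 ⟨0⟩
    exact_mod_cast this
  have hTD : ∀ F : (Fin k → Z) → ℝ, ∑ z ∈ T, F z = ∑ z, F z - ∑ z ∈ Tᶜ, F z := by
    intro F
    rw [← Finset.sum_add_sum_compl T F]
    ring
  have hDb : ∀ c, |∑ z ∈ Tᶜ, chi (Ex β c z)| ≤ ((Tᶜ).card : ℝ) := by
    intro c
    refine (Finset.abs_sum_le_sum_abs _ _).trans ?_
    rw [Finset.sum_congr rfl fun z _ => abs_chi (Ex β c z), Finset.sum_const, nsmul_eq_mul, mul_one]
  have hDQ : ((Tᶜ).card : ℝ) * Q ≤ 2 ^ k * (K.card : ℝ) * Q ^ k := by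
    rw [hQd]
    exact dep_card φ _ K (fun z hz h => (Finset.mem_compl.1 hz) ((hT z).2 h)) hK
  have h0mem : (0 : Fin k → Fin k → ZMod 2) ∈ Alt k :=
    Finset.mem_filter.2 ⟨Finset.mem_univ _, fun _ _ => rfl, fun _ => rfl⟩
  have hW : ∀ c ∈ Alt k, |∑ z ∈ T, chi (Ex β c z) - if c = 0 then Q ^ k else 0| * Q ≤
      ((R.card : ℝ) + 2 ^ k * K.card) * Q ^ k := by
    intro c hc
    have hc' := (Finset.mem_filter.1 hc).2
    have hQk : 0 ≤ Q ^ k := by positivity
    have hR0 : (0 : ℝ) ≤ (R.card : ℝ) * Q ^ k := by positivity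
    rw [hTD]
    by_cases h : c = 0
    · rw [if_pos h]
      have h3 : ∑ z : Fin k → Z, chi (Ex β c z) = Q ^ k := by
        have h4 : ∀ z ∈ (univ : Finset (Fin k → Z)), chi (Ex β c z) = 1 := by
          intro z _
          have : Ex β c z = 0 := by
            rw [h]
            exact Ex_zero β z
          rw [this, chi_zero']
        rw [Finset.sum_congr rfl h4, Finset.sum_const, Finset.card_univ, nsmul_eq_mul, mul_one,
          Fintype.card_fun, Fintype.card_fin, hQd]
        push_cast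
        rfl
      rw [h3]
      have h5 : Q ^ k - ∑ z ∈ Tᶜ, chi (Ex β c z) - Q ^ k = - ∑ z ∈ Tᶜ, chi (Ex β c z) := by ring
      rw [h5, abs_neg]
      have h6 := mul_le_mul_of_nonneg_right (hDb c) hpos.le
      rw [add_mul]
      linarith
    · rw [if_neg h, sub_zero]
      have h3 := char_alt' β c hc'.1 hc'.2 h R hR
      rw [← hQd] at h3
      have h4 := abs_sub (∑ z : Fin k → Z, chi (Ex β c z)) (∑ z ∈ Tᶜ, chi (Ex β c z))
      have h6 := hDb c
      have h5 : |∑ z : Fin k → Z, chi (Ex β c z) - ∑ z ∈ Tᶜ, chi (Ex β c z)| * Q ≤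
          (|∑ z : Fin k → Z, chi (Ex β c z)| + ((Tᶜ).card : ℝ)) * Q :=
        mul_le_mul_of_nonneg_right (by linarith) hpos.le
      rw [add_mul] at h5
      rw [add_mul]
      linarith
  have h3 : (∑ c ∈ Alt k, ∑ z ∈ T, chi (Ex β c z)) - Q ^ k =
      ∑ c ∈ Alt k, (∑ z ∈ T, chi (Ex β c z) - if c = 0 then Q ^ k else 0) := by
    rw [Finset.sum_sub_distrib, Finset.sum_ite_eq' (Alt k), if_pos h0mem]
  rw [h3]
  refine (mul_le_mul_of_nonneg_right (Finset.abs_sum_le_sum_abs _ _) hpos.le).trans ?_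
  rw [Finset.sum_mul]
  refine (Finset.sum_le_sum hW).trans ?_
  rw [Finset.sum_const, nsmul_eq_mul]

end

/-- the numerical part -/
theorem numer {k u j m n : ℕ} {Q S a r κ : ℝ} (hQ : Q = 2 ^ j) (ha : 0 ≤ a) (hA : a * 2 ^ k ≤ 2 ^ (k ^ 2))
    (hr : 0 ≤ r) (h4 : |S - 1| * Q ≤ a * (r + 2 ^ k * κ))
    (hRb : r * 2 ^ n ≤ 2 ^ (j + m) * 4 ^ u) (hKb : κ ≤ 2 ^ u) :
    |S - 1| ≤ 2 ^ (k ^ 2 + 1) * (2 ^ u / 2 ^ j + 4 ^ u * 2 ^ m / 2 ^ n) := by
  have hpos : 0 < Q := by rw [hQ]; positivity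
  have hr2 : r ≤ 4 ^ u * 2 ^ m / 2 ^ n * Q := by
    rw [hQ, div_mul_eq_mul_div, le_div_iff₀ (by positivity)]
    refine hRb.trans (le_of_eq ?_)
    rw [pow_add]
    ring
  have hk2 : κ ≤ 2 ^ u / 2 ^ j * Q := by
    rw [hQ, div_mul_cancel₀ _ (by positivity)]
    exact hKb
  obtain ⟨d, hd⟩ : ∃ d : ℝ, d = 2 ^ u / 2 ^ j + 4 ^ u * 2 ^ m / 2 ^ n := ⟨_, rfl⟩
  have hd0 : 0 ≤ d := by rw [hd]; positivity
  rw [← hd]
  have h2k : (1 : ℝ) ≤ 2 ^ k := one_le_pow₀ (by norm_num)
  have h5 : r + 2 ^ k * κ ≤ 2 ^ k * (d * Q) := by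
    have h6 : r ≤ 2 ^ k * r := le_mul_of_one_le_left hr h2k
    have h7 : r + κ ≤ d * Q := by
      rw [hd, add_mul]
      linarith
    have h8 := mul_le_mul_of_nonneg_left h7 (le_trans zero_le_one h2k)
    linarith
  have h6 : |S - 1| * Q ≤ 2 ^ (k ^ 2) * d * Q := by
    refine h4.trans ?_
    refine (mul_le_mul_of_nonneg_left h5 ha).trans ?_
    have h7 := mul_le_mul_of_nonneg_right hA (mul_nonneg hd0 hpos.le)
    linarith
  have h7 := le_of_mul_le_mul_right h6 hpos
  refine h7.trans ?_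
  refine mul_le_mul_of_nonneg_right ?_ hd0
  exact pow_le_pow_right₀ (by norm_num) (by omega)


section rows
variable {J : Type} [Fintype J] [LinearOrder J] {J1 : Finset J}

/-- dual vectors -/
theorem dual_vec {J : Type} [Fintype J] [DecidableEq J] {k : ℕ} (y : Fin k → J → ZMod 2)
    (hli : LinearIndependent (ZMod 2) y) :
    ∃ v : Fin k → J → ZMod 2, ∀ i s, ∑ l, y i l * v s l = if s = i then 1 else 0 := by
  have hinj := linearIndependent_iff_injective_fintypeLinearCombination.1 hli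
  obtain ⟨G, hG⟩ := LinearMap.exists_leftInverse_of_injective
    (Fintype.linearCombination (ZMod 2) y) (LinearMap.ker_eq_bot.2 hinj)
  refine ⟨fun s l => G (Pi.single l 1) s, fun i s => ?_⟩
  have h1 : y i = ∑ l, y i l • (Pi.single l (1 : ZMod 2) : J → ZMod 2) := by
    funext j
    rw [Finset.sum_apply]
    simp [Pi.single_apply]
  have h2 : G (y i) = Pi.single i 1 := by
    have h3 := LinearMap.congr_fun hG (Pi.single i 1)
    rw [LinearMap.comp_apply, Fintype.linearCombination_apply_single, one_smul] at h3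
    exact h3
  have h4 : G (y i) s = ∑ l, y i l * G (Pi.single l 1) s := by
    conv_lhs => rw [h1]
    rw [map_sum, Finset.sum_apply]
    refine Finset.sum_congr rfl fun l _ => ?_
    rw [map_smul, Pi.smul_apply, smul_eq_mul]
  rw [← h4, h2, Pi.single_apply]

/-- a function on the large indices, extended by zero -/
noncomputable def ez (J1 : Finset J) {k : ℕ} (m : Fin k × J1 → ZMod 2) (i : Fin k) (l : J) : ZMod 2 :=
  if h : l ∈ J1 then m (i, ⟨l, h⟩) else 0

theorem ez_coe {k : ℕ} (m : Fin k × J1 → ZMod 2) (i : Fin k) (j : J1) : ez J1 m i j = m (i, j) := by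
  unfold ez
  rw [dif_pos j.2]

theorem sum_pick {k : ℕ} (m : Fin k × J1 → ZMod 2) (i : Fin k) (F : J → ZMod 2) (a : J) :
    ∑ j : J1, m (i, j) * (if a = (j : J) then F j else 0) = ez J1 m i a * F a := by
  unfold ez
  split_ifs with h
  · have h1 : ∀ j ∈ (univ : Finset J1), m (i, j) * (if a = (j : J) then F j else 0) =
        if j = ⟨a, h⟩ then m (i, ⟨a, h⟩) * F a else 0 := by
      intro j _
      by_cases h2 : j = ⟨a, h⟩
      · rw [if_pos h2, h2, if_pos rfl]
      · rw [if_neg h2, if_neg (fun h3 => h2 (Subtype.ext h3.symm)), mul_zero]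
    rw [Finset.sum_congr rfl h1, Finset.sum_ite_eq' univ, if_pos (Finset.mem_univ _)]
  · rw [zero_mul]
    refine Finset.sum_eq_zero fun j _ => ?_
    rw [if_neg (fun h3 => h (by rw [h3]; exact j.2)), mul_zero]

/-- the pairing with the rows -/
noncomputable def pair (J1 : Finset J) {k : ℕ} (y : Fin k → J → ZMod 2) (m : Fin k × J1 → ZMod 2) :
    (prs J1 → ZMod 2) →+ ZMod 2 where
  toFun α := ∑ p : Fin k × J1, m p * rowH J1 (y p.1) α p.2
  map_zero' := by simp
  map_add' α β := by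
    rw [← Finset.sum_add_distrib]
    refine Finset.sum_congr rfl fun p _ => ?_
    rw [map_add, Pi.add_apply, mul_add]

theorem pair_single {k : ℕ} (y : Fin k → J → ZMod 2) (m : Fin k × J1 → ZMod 2) (e : prs J1) :
    pair J1 y m (Pi.single e 1) =
      ∑ i, (ez J1 m i e.1.1 + ez J1 m i e.1.2) * (y i e.1.1 + y i e.1.2) := by
  show ∑ p : Fin k × J1, m p * rowH J1 (y p.1) (Pi.single e 1) p.2 = _
  rw [Fintype.sum_prod_type]
  refine Finset.sum_congr rfl fun i _ => ?_
  have h1 : ∀ j ∈ (univ : Finset J1), m (i, j) * rowH J1 (y i) (Pi.single e 1) j =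
      m (i, j) * (if e.1.1 = (j : J) then y i e.1.2 + y i j else 0) +
      m (i, j) * (if e.1.2 = (j : J) then y i e.1.1 + y i j else 0) := by
    intro j _
    rw [rowH_single, mul_add]
  rw [Finset.sum_congr rfl h1, Finset.sum_add_distrib,
    sum_pick m i (fun j => y i e.1.2 + y i j) e.1.1, sum_pick m i (fun j => y i e.1.1 + y i j) e.1.2]
  ring

theorem pair_zero_iff {k : ℕ} (y : Fin k → J → ZMod 2) (m : Fin k × J1 → ZMod 2) :
    (∀ α, pair J1 y m α = 0) ↔
      ∀ e : prs J1, ∑ i, (ez J1 m i e.1.1 + ez J1 m i e.1.2) * (y i e.1.1 + y i e.1.2) = 0 := by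
  constructor
  · intro h e
    rw [← pair_single]
    exact h _
  · intro h
    have h1 : pair J1 y m = 0 := by
      refine AddMonoidHom.functions_ext _ _ _ fun e x => ?_
      rcases z2' x with rfl | rfl
      · rw [Pi.single_zero, map_zero, map_zero]
      · rw [pair_single, h e]
        rfl
    intro α
    rw [h1]
    rfl

/-- the multipliers from the alternating matrices -/
noncomputable def toL (J1 : Finset J) {k : ℕ} (y : Fin k → J → ZMod 2) (c : Fin k → Fin k → ZMod 2) :
    Fin k × J1 → ZMod 2 := fun p => ∑ s, c p.1 s * y s p.2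

theorem ez_toL {k : ℕ} (y : Fin k → J → ZMod 2) (hy : ∀ i l, l ∉ J1 → y i l = 0)
    (c : Fin k → Fin k → ZMod 2) (i : Fin k) (l : J) : ez J1 (toL J1 y c) i l = ∑ s, c i s * y s l := by
  unfold ez
  split_ifs with h
  · rfl
  · symm
    exact Finset.sum_eq_zero fun s _ => by rw [hy s l h, mul_zero]

theorem toL_mem {k : ℕ} (y : Fin k → J → ZMod 2) (hy : ∀ i l, l ∉ J1 → y i l = 0)
    (c : Fin k → Fin k → ZMod 2) (hc : c ∈ Alt k) : ∀ α, pair J1 y (toL J1 y c) α = 0 := by
  have hc := (Finset.mem_filter.1 hc).2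
  rw [pair_zero_iff]
  intro e
  simp only [ez_toL y hy]
  have h1 : ∀ i ∈ (univ : Finset (Fin k)), (∑ s, c i s * y s e.1.1 + ∑ s, c i s * y s e.1.2) *
      (y i e.1.1 + y i e.1.2) =
      ∑ s, c i s * (y s e.1.1 + y s e.1.2) * (y i e.1.1 + y i e.1.2) := by
    intro i _
    rw [← Finset.sum_add_distrib, Finset.sum_mul]
    exact Finset.sum_congr rfl fun s _ => by ring
  rw [Finset.sum_congr rfl h1]
  refine sum_alt (fun i s => c i s * (y s e.1.1 + y s e.1.2) * (y i e.1.1 + y i e.1.2)) ?_ ?_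
  · intro i s
    show c i s * (y s e.1.1 + y s e.1.2) * (y i e.1.1 + y i e.1.2) =
      c s i * (y i e.1.1 + y i e.1.2) * (y s e.1.1 + y s e.1.2)
    rw [hc.1 i s]
    ring
  · intro i
    show c i i * (y i e.1.1 + y i e.1.2) * (y i e.1.1 + y i e.1.2) = 0
    rw [hc.2 i]
    ring

theorem toL_surj {k : ℕ} (hne : ∃ l, l ∉ J1) (y : Fin k → J → ZMod 2)
    (hy : ∀ i l, l ∉ J1 → y i l = 0) (hli : LinearIndependent (ZMod 2) y)
    (m : Fin k × J1 → ZMod 2) (hm : ∀ α, pair J1 y m α = 0) : ∃ c ∈ Alt k, toL J1 y c = m := by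
  rw [pair_zero_iff] at hm
  obtain ⟨l₀, hl₀⟩ := hne
  obtain ⟨v, hv⟩ := dual_vec y hli
  have hez : ∀ i l, l ∉ J1 → ez J1 m i l = 0 := fun i l h => by unfold ez; rw [dif_neg h]
  -- the matrix
  obtain ⟨Λ, hΛ⟩ : ∃ Λ : J → J → ZMod 2, ∀ j l, Λ j l = ∑ i, ez J1 m i j * y i l := ⟨_, fun _ _ => rfl⟩
  have hdiag : ∀ j, Λ j j = 0 := by
    intro j
    by_cases hj : j ∈ J1
    · have he : (j, l₀) ∈ prs J1 := Finset.mem_filter.2 ⟨Finset.mem_univ _, hj,
        fun h => hl₀ (by show l₀ ∈ J1; rw [show l₀ = j from h]; exact hj), fun h => absurd h hl₀⟩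
      have h1 := hm ⟨_, he⟩
      rw [hΛ, ← h1]
      refine Finset.sum_congr rfl fun i _ => ?_
      show _ = (ez J1 m i j + ez J1 m i l₀) * (y i j + y i l₀)
      rw [hez i l₀ hl₀, hy i l₀ hl₀, add_zero, add_zero]
    · rw [hΛ]
      exact Finset.sum_eq_zero fun i _ => by rw [hez i j hj, zero_mul]
  have h2 : ∀ x : ZMod 2, x + x = 0 := by decide
  have hexp : ∀ j l, ∑ i, (ez J1 m i j + ez J1 m i l) * (y i j + y i l) =
      Λ j j + Λ j l + (Λ l j + Λ l l) := by
    intro j l
    rw [hΛ, hΛ, hΛ, hΛ, ← Finset.sum_add_distrib, ← Finset.sum_add_distrib, ← Finset.sum_add_distrib]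
    exact Finset.sum_congr rfl fun i _ => by ring
  have hsym : ∀ j l, Λ j l = Λ l j := by
    have key : ∀ j l, (j, l) ∈ prs J1 → Λ j l = Λ l j := by
      intro j l he
      have h1 := hm ⟨_, he⟩
      have h3 : ∑ i, (ez J1 m i j + ez J1 m i l) * (y i j + y i l) = 0 := h1
      rw [hexp, hdiag, hdiag, zero_add, add_zero] at h3
      have h4 : ∀ a b : ZMod 2, a + b = 0 → a = b := by decide
      exact h4 _ _ h3
    intro j l
    by_cases hj : j ∈ J1
    · by_cases hl : l ∈ J1
      · rcases lt_trichotomy j l with h | h | h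
        · exact key j l (Finset.mem_filter.2 ⟨Finset.mem_univ _, hj, h.ne', fun _ => h⟩)
        · rw [h]
        · exact (key l j (Finset.mem_filter.2 ⟨Finset.mem_univ _, hl, h.ne', fun _ => h⟩)).symm
      · rw [hΛ, hΛ]
        rw [Finset.sum_eq_zero fun i _ => by rw [hy i l hl, mul_zero],
          Finset.sum_eq_zero fun i _ => by rw [hez i l hl, zero_mul]]
    · rw [hΛ, hΛ]
      rw [Finset.sum_eq_zero fun i _ => by rw [hez i j hj, zero_mul],
        Finset.sum_eq_zero fun i _ => by rw [hy i j hj, mul_zero]]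
  have hdual : ∀ i l, ez J1 m i l = ∑ l', v i l' * Λ l l' := by
    intro i l
    simp only [hΛ, Finset.mul_sum]
    rw [Finset.sum_comm]
    have h1 : ∀ s ∈ (univ : Finset (Fin k)), ∑ l', v i l' * (ez J1 m s l * y s l') =
        if s = i then ez J1 m i l else 0 := by
      intro s _
      have h3 : ∑ l', v i l' * (ez J1 m s l * y s l') = ez J1 m s l * ∑ l', y s l' * v i l' := by
        rw [Finset.mul_sum]
        exact Finset.sum_congr rfl fun l' _ => by ring
      rw [h3, hv s i]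
      by_cases h4 : s = i
      · rw [if_pos h4.symm, if_pos h4, h4, mul_one]
      · rw [if_neg (fun h => h4 h.symm), if_neg h4, mul_zero]
    rw [Finset.sum_congr rfl h1, Finset.sum_ite_eq' univ, if_pos (Finset.mem_univ _)]
  refine ⟨fun s i => ∑ l, v s l * ez J1 m i l, Finset.mem_filter.2 ⟨Finset.mem_univ _, ?_, ?_⟩, ?_⟩
  · intro s i
    show ∑ l, v s l * ez J1 m i l = ∑ l, v i l * ez J1 m s l
    simp only [hdual, Finset.mul_sum]
    rw [Finset.sum_comm]
    refine Finset.sum_congr rfl fun l _ => Finset.sum_congr rfl fun l' _ => ?_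
    rw [hsym l' l]
    ring
  · intro s
    show ∑ l, v s l * ez J1 m s l = 0
    simp only [hdual, Finset.mul_sum]
    refine sum_alt (fun l l' => v s l * (v s l' * Λ l l')) ?_ ?_
    · intro l l'
      show v s l * (v s l' * Λ l l') = v s l' * (v s l * Λ l' l)
      rw [hsym l l']
      ring
    · intro l
      show v s l * (v s l * Λ l l) = 0
      rw [hdiag]
      ring
  · funext ⟨s, j⟩
    show ∑ i, (∑ l, v s l * ez J1 m i l) * y i j = m (s, j)
    rw [← ez_coe m s j, hdual]
    simp only [Finset.sum_mul]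
    rw [Finset.sum_comm]
    refine Finset.sum_congr rfl fun l _ => ?_
    rw [hsym, hΛ, Finset.mul_sum]
    exact Finset.sum_congr rfl fun i _ => by ring

theorem toL_inj {k : ℕ} (y : Fin k → J → ZMod 2)
    (hy : ∀ i l, l ∉ J1 → y i l = 0) (hli : LinearIndependent (ZMod 2) y)
    (c c' : Fin k → Fin k → ZMod 2) (h : toL J1 y c = toL J1 y c') : c = c' := by
  funext i
  have h1 : ∑ s, (c i s - c' i s) • y s = 0 := by
    funext l
    rw [Finset.sum_apply, Pi.zero_apply]
    simp only [Pi.smul_apply, smul_eq_mul, sub_mul, Finset.sum_sub_distrib]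
    rw [← ez_toL y hy c i l, ← ez_toL y hy c' i l, h, sub_self]
  have h2 := Fintype.linearIndependent_iff.1 hli _ h1
  funext s
  exact sub_eq_zero.1 (h2 s)

/-- **the number of the completions for which given vectors have given rows** -/
theorem rows_count {k : ℕ} (hne : ∃ l, l ∉ J1) (y : Fin k → J → ZMod 2)
    (hy : ∀ i l, l ∉ J1 → y i l = 0) (hli : LinearIndependent (ZMod 2) y) (h : Fin k → J → ZMod 2) :
    ((univ.filter fun α : prs J1 → ZMod 2 => ∀ i, ∀ j ∈ J1,
      ∑ l, ext α j l * (y i l + y i j) = h i j).card : ℝ) * (2 ^ J1.card) ^ k =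
      2 ^ (prs J1).card * ∑ c ∈ Alt k, chi (∑ i, ∑ s, c i s * ∑ j ∈ J1, y s j * h i j) := by
  have hN : Fintype.card (prs J1 → ZMod 2) = 2 ^ (prs J1).card := by
    rw [Fintype.card_fun, ZMod.card, Fintype.card_coe]
  set Ann := univ.filter fun m : Fin k × J1 → ZMod 2 => ∀ α, pair J1 y m α = 0 with hAnn
  have hA : ∑ α : prs J1 → ZMod 2, ∑ m : Fin k × J1 → ZMod 2,
      chi (∑ p, m p * (rowH J1 (y p.1) α p.2 + h p.1 p.2)) =
      ((univ.filter fun α : prs J1 → ZMod 2 => ∀ i, ∀ j ∈ J1,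
      ∑ l, ext α j l * (y i l + y i j) = h i j).card : ℝ) * (2 ^ J1.card) ^ k := by
    have h1 : ∀ α ∈ (univ : Finset (prs J1 → ZMod 2)), ∑ m : Fin k × J1 → ZMod 2,
        chi (∑ p, m p * (rowH J1 (y p.1) α p.2 + h p.1 p.2)) =
        if (∀ i, ∀ j ∈ J1, ∑ l, ext α j l * (y i l + y i j) = h i j) then
          ((2 : ℝ) ^ J1.card) ^ k else 0 := by
      intro α _
      rw [sum_chi_dot (fun p : Fin k × J1 => rowH J1 (y p.1) α p.2 + h p.1 p.2)]
      have h2 : ((fun p : Fin k × J1 => rowH J1 (y p.1) α p.2 + h p.1 p.2) = 0) ↔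
          (∀ i, ∀ j ∈ J1, ∑ l, ext α j l * (y i l + y i j) = h i j) := by
        have h3 : ∀ a b : ZMod 2, a + b = 0 ↔ a = b := by decide
        constructor
        · intro h4 i j hj
          have h5 := congrFun h4 (i, ⟨j, hj⟩)
          exact (h3 _ _).1 h5
        · intro h4
          funext p
          exact (h3 _ _).2 (h4 p.1 p.2 p.2.2)
      have h5 : (2 : ℝ) ^ Fintype.card (Fin k × J1) = ((2 : ℝ) ^ J1.card) ^ k := by
        rw [Fintype.card_prod, Fintype.card_fin, Fintype.card_coe, ← pow_mul, mul_comm]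
      rw [h5]
      by_cases h6 : (∀ i, ∀ j ∈ J1, ∑ l, ext α j l * (y i l + y i j) = h i j)
      · rw [if_pos h6, if_pos (h2.2 h6)]
      · rw [if_neg h6, if_neg fun h7 => h6 (h2.1 h7)]
    rw [Finset.sum_congr rfl h1, ← Finset.sum_filter, Finset.sum_const, nsmul_eq_mul]
  have hB : ∑ α : prs J1 → ZMod 2, ∑ m : Fin k × J1 → ZMod 2,
      chi (∑ p, m p * (rowH J1 (y p.1) α p.2 + h p.1 p.2)) =
      2 ^ (prs J1).card * ∑ m ∈ Ann, chi (∑ p : Fin k × J1, m p * h p.1 p.2) := by
    rw [Finset.sum_comm]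
    have h1 : ∀ m ∈ (univ : Finset (Fin k × J1 → ZMod 2)), ∑ α : prs J1 → ZMod 2,
        chi (∑ p, m p * (rowH J1 (y p.1) α p.2 + h p.1 p.2)) =
        if m ∈ Ann then 2 ^ (prs J1).card * chi (∑ p : Fin k × J1, m p * h p.1 p.2) else 0 := by
      intro m _
      have h2 : ∀ α ∈ (univ : Finset (prs J1 → ZMod 2)),
          chi (∑ p, m p * (rowH J1 (y p.1) α p.2 + h p.1 p.2)) =
          chi (pair J1 y m α) * chi (∑ p : Fin k × J1, m p * h p.1 p.2) := by
        intro α _
        rw [← chi_add]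
        congr 1
        show _ = ∑ p : Fin k × J1, m p * rowH J1 (y p.1) α p.2 + ∑ p : Fin k × J1, m p * h p.1 p.2
        rw [← Finset.sum_add_distrib]
        exact Finset.sum_congr rfl fun p _ => mul_add _ _ _
      rw [Finset.sum_congr rfl h2, ← Finset.sum_mul, sum_chi (fun α => pair J1 y m α) (map_add _), hN]
      by_cases h3 : ∀ α, pair J1 y m α = 0
      · rw [if_pos h3, if_pos (Finset.mem_filter.2 ⟨Finset.mem_univ _, h3⟩)]
        push_cast
        ring
      · rw [if_neg h3, if_neg fun h4 => h3 (Finset.mem_filter.1 h4).2, zero_mul]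
    rw [Finset.sum_congr rfl h1, ← Finset.sum_filter, Finset.mul_sum]
    refine Finset.sum_congr ?_ fun _ _ => rfl
    ext m
    simp only [Finset.mem_filter, Finset.mem_univ, true_and]
  have hC : ∑ m ∈ Ann, chi (∑ p : Fin k × J1, m p * h p.1 p.2) =
      ∑ c ∈ Alt k, chi (∑ i, ∑ s, c i s * ∑ j ∈ J1, y s j * h i j) := by
    symm
    refine Finset.sum_nbij (fun c => toL J1 y c) ?_ ?_ ?_ ?_
    · intro c hc
      exact Finset.mem_filter.2 ⟨Finset.mem_univ _, toL_mem y hy c hc⟩
    · intro c _ c' _ he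
      exact toL_inj y hy hli c c' he
    · intro m hm
      obtain ⟨c, hc, he⟩ := toL_surj hne y hy hli m (Finset.mem_filter.1 (Finset.mem_coe.1 hm)).2
      exact ⟨c, Finset.mem_coe.2 hc, he⟩
    · intro c _
      congr 1
      rw [Fintype.sum_prod_type]
      refine Finset.sum_congr rfl fun i _ => ?_
      show _ = ∑ j : J1, (∑ s, c i s * y s j) * h i j
      simp only [Finset.sum_mul]
      rw [Finset.sum_comm]
      refine Finset.sum_congr rfl fun s _ => ?_
      rw [Finset.mul_sum, ← Finset.sum_coe_sort J1 (fun j => c i s * (y s j * h i j))]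
      exact Finset.sum_congr rfl fun j _ => by ring
  rw [← hA, hB, hC]

end rows

section space
variable {U J : Type} [Fintype U] [Fintype J]

/-- the space of the pairs which satisfy the rows of the small primes -/
noncomputable def ZS (U1 : Finset U) (J1 : Finset J) (A : U → U → ZMod 2) (B : U → J → ZMod 2)
    (f : U → ZMod 2) : Submodule (ZMod 2) ((U → ZMod 2) × (J → ZMod 2)) where
  carrier := {z | (∀ u, u ∉ U1 → z.1 u = 0) ∧ (∀ l, l ∉ J1 → z.2 l = 0) ∧
    (∀ u ∈ U1, ∑ v, A u v * (z.1 v + z.1 u) + ∑ l, B u l * (z.2 l + z.1 u) + f u * z.1 u = 0)}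
  zero_mem' := by
    refine ⟨fun _ _ => rfl, fun _ _ => rfl, fun u _ => ?_⟩
    simp
  add_mem' := by
    rintro z w ⟨h1, h2, h3⟩ ⟨k1, k2, k3⟩
    refine ⟨fun u hu => ?_, fun l hl => ?_, fun u hu => ?_⟩
    · rw [Prod.fst_add, Pi.add_apply, h1 u hu, k1 u hu, add_zero]
    · rw [Prod.snd_add, Pi.add_apply, h2 l hl, k2 l hl, add_zero]
    · have h := congrArg₂ (· + ·) (h3 u hu) (k3 u hu)
      simp only [add_zero] at h
      rw [← h]
      simp only [Prod.fst_add, Prod.snd_add, Pi.add_apply, mul_add, Finset.sum_add_distrib]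
      ring
  smul_mem' := by
    intro c z hz
    rcases z2' c with rfl | rfl
    · rw [zero_smul]
      refine ⟨fun _ _ => rfl, fun _ _ => rfl, fun u _ => ?_⟩
      simp
    · rw [one_smul]
      exact hz

theorem mem_ZS {U1 : Finset U} {J1 : Finset J} {A : U → U → ZMod 2} {B : U → J → ZMod 2}
    {f : U → ZMod 2} {z : (U → ZMod 2) × (J → ZMod 2)} : z ∈ ZS U1 J1 A B f ↔
      (∀ u, u ∉ U1 → z.1 u = 0) ∧ (∀ l, l ∉ J1 → z.2 l = 0) ∧
    (∀ u ∈ U1, ∑ v, A u v * (z.1 v + z.1 u) + ∑ l, B u l * (z.2 l + z.1 u) + f u * z.1 u = 0) :=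
  Iff.rfl

/-- the number of its elements -/
theorem card_ZS (U1 : Finset U) (J1 : Finset J) (A : U → U → ZMod 2) (B : U → J → ZMod 2)
    (f : U → ZMod 2) (hs : Function.Surjective (rowU U1 J1 B)) :
    Nat.card (ZS U1 J1 A B f) = 2 ^ J1.card := by
  rw [Nat.card_eq_fintype_card]
  have hF1 := fiber_card' (rowU U1 J1 B).toAddMonoidHom hs 0
  rw [Fintype.card_fun, Fintype.card_fun, ZMod.card, Fintype.card_coe, Fintype.card_coe] at hF1
  let p : ZS U1 J1 A B f →+ (U1 → ZMod 2) :=
    { toFun := fun z u => z.1.1 u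
      map_zero' := rfl
      map_add' := fun _ _ => rfl }
  have hp : ∀ z u, p z u = z.1.1 u := fun _ _ => rfl
  have h2 : ∀ x : ZMod 2, x + x = 0 := by decide
  have hps : Function.Surjective p := by
    intro ξ
    set xx : U → ZMod 2 := fun u => if h : u ∈ U1 then ξ ⟨u, h⟩ else 0 with hxx
    obtain ⟨t, ht⟩ := hs (fun u => ∑ v, A u v * (xx v + xx u) + ∑ l, B u l * xx u + f u * xx u)
    refine ⟨⟨(xx, fun l => if h : l ∈ J1 then t ⟨l, h⟩ else 0), ?_⟩, ?_⟩
    · rw [mem_ZS]
      refine ⟨fun u hu => by simp only [hxx, dif_neg hu], fun l hl => by simp only [dif_neg hl],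
        fun u hu => ?_⟩
      have h3 := congrFun ht ⟨u, hu⟩
      have h4 : ∑ k : J1, B u k * t k =
          ∑ v, A u v * (xx v + xx u) + ∑ l, B u l * xx u + f u * xx u := h3
      have h5 : ∑ l, B u l * (if h : l ∈ J1 then t ⟨l, h⟩ else 0) = ∑ k : J1, B u k * t k := by
        rw [← Finset.sum_subset (Finset.subset_univ J1) (fun l _ hl => by
          rw [dif_neg hl, mul_zero]),
          ← Finset.sum_coe_sort J1 (fun l => B u l * (if h : l ∈ J1 then t ⟨l, h⟩ else 0))]
        exact Finset.sum_congr rfl fun k _ => by rw [dif_pos k.2]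
      show ∑ v, A u v * (xx v + xx u) + ∑ l, B u l * ((if h : l ∈ J1 then t ⟨l, h⟩ else 0) + xx u) +
        f u * xx u = 0
      have h6 : ∑ l, B u l * ((if h : l ∈ J1 then t ⟨l, h⟩ else 0) + xx u) =
          ∑ l, B u l * (if h : l ∈ J1 then t ⟨l, h⟩ else 0) + ∑ l, B u l * xx u := by
        rw [← Finset.sum_add_distrib]
        exact Finset.sum_congr rfl fun l _ => mul_add _ _ _
      rw [h6, h5, h4]
      have h7 : ∀ a b c : ZMod 2, a + ((a + b + c) + b) + c = 0 := by decide
      exact h7 _ _ _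
    · funext u
      rw [hp]
      show xx u = ξ u
      simp only [hxx, dif_pos u.2]
  have hF2 := fiber_card' p hps 0
  rw [Fintype.card_fun, ZMod.card, Fintype.card_coe] at hF2
  have hF3 : (univ.filter fun z => p z = 0).card =
      (univ.filter fun t => (rowU U1 J1 B).toAddMonoidHom t = 0).card := by
    have hx0 : ∀ z : ZS U1 J1 A B f, p z = 0 → ∀ u, z.1.1 u = 0 := by
      intro z hz u
      by_cases h : u ∈ U1
      · exact congrFun hz ⟨u, h⟩
      · exact z.2.1 u h
    refine Finset.card_bij (fun z _ (k : J1) => z.1.2 k) ?_ ?_ ?_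
    · intro z hz
      have hz := (Finset.mem_filter.1 hz).2
      refine Finset.mem_filter.2 ⟨Finset.mem_univ _, funext fun u => ?_⟩
      show ∑ k : J1, B u k * z.1.2 k = 0
      have h3 := z.2.2.2 u u.2
      simp only [hx0 z hz, add_zero, mul_zero, Finset.sum_const_zero, zero_add] at h3
      rw [← h3, Finset.sum_coe_sort J1 (fun l => B u l * z.1.2 l)]
      exact Finset.sum_subset (Finset.subset_univ _) fun l _ hl => by rw [z.2.2.1 l hl, mul_zero]
    · intro z hz z' hz' he
      have hz := (Finset.mem_filter.1 hz).2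
      have hz' := (Finset.mem_filter.1 hz').2
      refine Subtype.ext (Prod.ext (funext fun u => ?_) (funext fun l => ?_))
      · rw [hx0 z hz, hx0 z' hz']
      · by_cases h : l ∈ J1
        · exact congrFun he ⟨l, h⟩
        · rw [z.2.2.1 l h, z'.2.2.1 l h]
    · intro t ht
      have ht := (Finset.mem_filter.1 ht).2
      refine ⟨⟨(0, fun l => if h : l ∈ J1 then t ⟨l, h⟩ else 0), ?_⟩, ?_, ?_⟩
      · rw [mem_ZS]
        refine ⟨fun _ _ => rfl, fun l hl => by simp only [dif_neg hl], fun u hu => ?_⟩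
        have h3 : ∑ k : J1, B u k * t k = 0 := congrFun ht ⟨u, hu⟩
        have h5 : ∑ l, B u l * (if h : l ∈ J1 then t ⟨l, h⟩ else 0) = ∑ k : J1, B u k * t k := by
          rw [← Finset.sum_subset (Finset.subset_univ J1) (fun l _ hl => by
            rw [dif_neg hl, mul_zero]),
            ← Finset.sum_coe_sort J1 (fun l => B u l * (if h : l ∈ J1 then t ⟨l, h⟩ else 0))]
          exact Finset.sum_congr rfl fun k _ => by rw [dif_pos k.2]
        simp only [Pi.zero_apply, add_zero, mul_zero, Finset.sum_const_zero, zero_add]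
        rw [h5, h3]
      · exact Finset.mem_filter.2 ⟨Finset.mem_univ _, rfl⟩
      · funext k
        show (if h : (k : J) ∈ J1 then t ⟨k, h⟩ else 0) = t k
        rw [dif_pos k.2]
  rw [← hF2, hF3, hF1]

end space

section rad
variable {U J : Type} [Fintype U] [Fintype J]

/-- the right hand side of the large rows -/
noncomputable def hh (C : J → U → ZMod 2) (e : J → J → ZMod 2) (g : J → ZMod 2)
    (z : (U → ZMod 2) × (J → ZMod 2)) (j : J) : ZMod 2 :=
  ∑ u, C j u * (z.1 u + z.2 j) + g j * z.2 j + ∑ l, e j l * (z.2 l + z.2 j)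

theorem hh_add (C : J → U → ZMod 2) (e : J → J → ZMod 2) (g : J → ZMod 2)
    (z w : (U → ZMod 2) × (J → ZMod 2)) (j : J) : hh C e g (z + w) j = hh C e g z j + hh C e g w j := by
  unfold hh
  simp only [Prod.fst_add, Prod.snd_add, Pi.add_apply, mul_add, Finset.sum_add_distrib]
  ring

theorem hh_smul (C : J → U → ZMod 2) (e : J → J → ZMod 2) (g : J → ZMod 2) (c : ZMod 2)
    (z : (U → ZMod 2) × (J → ZMod 2)) (j : J) : hh C e g (c • z) j = c * hh C e g z j := by
  rcases z2' c with rfl | rfl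
  · rw [zero_smul, zero_mul]
    unfold hh
    simp
  · rw [one_smul, one_mul]

/-- the form -/
noncomputable def bet (U1 : Finset U) (J1 : Finset J) (A : U → U → ZMod 2) (B : U → J → ZMod 2)
    (f : U → ZMod 2) (C : J → U → ZMod 2) (e : J → J → ZMod 2) (g : J → ZMod 2) :
    ZS U1 J1 A B f →ₗ[ZMod 2] ZS U1 J1 A B f →ₗ[ZMod 2] ZMod 2 :=
  LinearMap.mk₂ (ZMod 2) (fun z z' => ∑ j ∈ J1, z.1.2 j * hh C e g z'.1 j)
    (by
      intro z w t
      rw [← Finset.sum_add_distrib]
      exact Finset.sum_congr rfl fun j _ => add_mul _ _ _)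
    (by
      intro c z t
      rw [smul_eq_mul, Finset.mul_sum]
      exact Finset.sum_congr rfl fun j _ => mul_assoc _ _ _)
    (by
      intro z w t
      rw [← Finset.sum_add_distrib]
      refine Finset.sum_congr rfl fun j _ => ?_
      show z.1.2 j * hh C e g (w.1 + t.1) j = _
      rw [hh_add, mul_add])
    (by
      intro c z t
      rw [smul_eq_mul, Finset.mul_sum]
      refine Finset.sum_congr rfl fun j _ => ?_
      show z.1.2 j * hh C e g (c • t.1) j = _
      rw [hh_smul]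
      ring)

theorem bet_apply (U1 : Finset U) (J1 : Finset J) (A : U → U → ZMod 2) (B : U → J → ZMod 2)
    (f : U → ZMod 2) (C : J → U → ZMod 2) (e : J → J → ZMod 2) (g : J → ZMod 2)
    (z w : ZS U1 J1 A B f) :
    bet U1 J1 A B f C e g z w = ∑ j ∈ J1, z.1.2 j * hh C e g w.1 j := rfl

/-- the functional of a pair -/
noncomputable def tt (J1 : Finset J) (C : J → U → ZMod 2) (e : J → J → ZMod 2)
    (z : (U → ZMod 2) × (J → ZMod 2)) (j : J) : ZMod 2 :=
  ∑ u, C j u * z.1 u + ∑ l ∈ J1.erase j, (e j l + e l j) * z.2 l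

theorem psi (J1 : Finset J) (C : J → U → ZMod 2) (e : J → J → ZMod 2) (g : J → ZMod 2)
    (w t : (U → ZMod 2) × (J → ZMod 2)) (hw : ∀ l, l ∉ J1 → w.2 l = 0)
    (ht : ∀ l, l ∉ J1 → t.2 l = 0) (ht0 : ∀ u, t.1 u = 0) :
    ∑ j ∈ J1, w.2 j * hh C e g t j + ∑ j ∈ J1, t.2 j * hh C e g w j = ∑ j ∈ J1, t.2 j * tt J1 C e w j := by
  have h2 : ∀ x : ZMod 2, x + x = 0 := by decide
  have hsub : ∀ (y : J → ZMod 2) (F : J → ZMod 2), (∀ l, l ∉ J1 → y l = 0) →
      ∑ l, F l * y l = ∑ l ∈ J1, F l * y l := fun y F hy =>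
    (Finset.sum_subset (Finset.subset_univ _) fun l _ hl => by rw [hy l hl, mul_zero]).symm
  -- expand the two sides
  have e1 : ∀ j ∈ J1, w.2 j * hh C e g t j + t.2 j * hh C e g w j =
      t.2 j * ∑ u, C j u * w.1 u + (∑ l ∈ J1, e j l * t.2 l * w.2 j + ∑ l ∈ J1, e j l * w.2 l * t.2 j) := by
    intro j _
    unfold hh
    simp only [ht0, zero_add, mul_add, Finset.sum_add_distrib]
    rw [hsub t.2 (fun l => e j l) ht, hsub w.2 (fun l => e j l) hw]
    simp only [← Finset.sum_mul]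
    have h3 : ∀ a b c p q r s t : ZMod 2, a * (b * c) + a * (p * c) + (a * q + a * (r * c)) +
        (c * s + c * (b * a) + c * (p * a) + (c * t + c * (r * a))) =
        c * s + (q * a + t * c) := by
      intro a b c p q r s t
      have h4 : a * (b * c) + a * (p * c) + (a * q + a * (r * c)) +
        (c * s + c * (b * a) + c * (p * a) + (c * t + c * (r * a))) =
        c * s + (q * a + t * c) + ((a * b * c + a * b * c) + (a * p * c + a * p * c) +
          (a * r * c + a * r * c)) := by ring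
      have h5 : a * b * c + a * b * c = 0 := h2 _
      have h6 : a * p * c + a * p * c = 0 := h2 _
      have h7 : a * r * c + a * r * c = 0 := h2 _
      rw [h4, h5, h6, h7]
      ring
    exact h3 _ _ _ _ _ _ _ _
  rw [← Finset.sum_add_distrib, Finset.sum_congr rfl e1, Finset.sum_add_distrib,
    Finset.sum_add_distrib]
  have e2 : ∑ j ∈ J1, ∑ l ∈ J1, e j l * t.2 l * w.2 j = ∑ j ∈ J1, ∑ l ∈ J1, e l j * w.2 l * t.2 j := by
    rw [Finset.sum_comm]
    exact Finset.sum_congr rfl fun j _ => Finset.sum_congr rfl fun l _ => by ring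
  rw [e2, ← Finset.sum_add_distrib, ← Finset.sum_add_distrib]
  refine Finset.sum_congr rfl fun j hj => ?_
  unfold tt
  rw [mul_add]
  congr 1
  rw [← Finset.sum_add_distrib, ← Finset.add_sum_erase J1 _ hj, Finset.mul_sum]
  have e3 : e j j * w.2 j * t.2 j + e j j * w.2 j * t.2 j = 0 := h2 _
  rw [e3, zero_add]
  exact Finset.sum_congr rfl fun l _ => by ring

/-- the radical is small -/
theorem rad_card0 (U1 : Finset U) (J1 : Finset J) (A : U → U → ZMod 2) (B : U → J → ZMod 2)
    (f : U → ZMod 2) (C : J → U → ZMod 2) (e : J → J → ZMod 2) (g : J → ZMod 2)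
    (hs : Function.Surjective (rowU U1 J1 B)) :
    (univ.filter fun w : ZS U1 J1 A B f => ∀ t, bet U1 J1 A B f C e g w t +
      bet U1 J1 A B f C e g t w = 0).card ≤
    (univ.filter fun y : J → ZMod 2 => (∀ k, k ∉ J1 → y k = 0) ∧
      ∀ k ∈ J1, ∑ l ∈ J1.erase k, (e k l + e l k) * y l = 0).card * 4 ^ Fintype.card U := by
  have h2 : ∀ x : ZMod 2, x + x = 0 := by decide
  obtain ⟨Gr, hGr⟩ := LinearMap.exists_rightInverse_of_surjective (rowU U1 J1 B)
    (LinearMap.range_eq_top.2 hs)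
  have hGr' : ∀ x, rowU U1 J1 B (Gr x) = x := fun x => LinearMap.congr_fun hGr x
  -- orthogonality
  have horth : ∀ w : ZS U1 J1 A B f, (∀ t, bet U1 J1 A B f C e g w t +
      bet U1 J1 A B f C e g t w = 0) → ∀ y' : J1 → ZMod 2, rowU U1 J1 B y' = 0 →
      ∑ j : J1, y' j * tt J1 C e w.1 j = 0 := by
    intro w hw y' hy'
    have ht : ((0 : U → ZMod 2), fun l => if h : l ∈ J1 then y' ⟨l, h⟩ else 0) ∈ ZS U1 J1 A B f := by
      rw [mem_ZS]
      refine ⟨fun _ _ => rfl, fun l hl => by simp only [dif_neg hl], fun u hu => ?_⟩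
      have h3 : ∑ k : J1, B u k * y' k = 0 := congrFun hy' ⟨u, hu⟩
      have h5 : ∑ l, B u l * (if h : l ∈ J1 then y' ⟨l, h⟩ else 0) = ∑ k : J1, B u k * y' k := by
        rw [← Finset.sum_subset (Finset.subset_univ J1) (fun l _ hl => by
          rw [dif_neg hl, mul_zero]),
          ← Finset.sum_coe_sort J1 (fun l => B u l * (if h : l ∈ J1 then y' ⟨l, h⟩ else 0))]
        exact Finset.sum_congr rfl fun k _ => by rw [dif_pos k.2]
      simp only [Pi.zero_apply, add_zero, mul_zero, Finset.sum_const_zero, zero_add]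
      rw [h5, h3]
    have h3 := hw ⟨_, ht⟩
    rw [bet_apply, bet_apply, psi J1 C e g w.1 _ w.2.2.1 ht.2.1 (fun _ => rfl)] at h3
    rw [← h3, ← Finset.sum_coe_sort J1 (fun j => (if h : j ∈ J1 then y' ⟨j, h⟩ else 0) * tt J1 C e w.1 j)]
    exact Finset.sum_congr rfl fun j _ => by rw [dif_pos j.2]
  -- the values on the right inverse determine the functional
  have hdet : ∀ w w' : ZS U1 J1 A B f, (∀ t, bet U1 J1 A B f C e g w t +
      bet U1 J1 A B f C e g t w = 0) → (∀ t, bet U1 J1 A B f C e g w' t +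
      bet U1 J1 A B f C e g t w' = 0) →
      (∀ u : U1, ∑ j : J1, Gr (Pi.single u 1) j * tt J1 C e w.1 j =
        ∑ j : J1, Gr (Pi.single u 1) j * tt J1 C e w'.1 j) →
      ∀ j ∈ J1, tt J1 C e w.1 j = tt J1 C e w'.1 j := by
    intro w w' hw hw' h j hj
    have key : ∀ v : ZS U1 J1 A B f, (∀ t, bet U1 J1 A B f C e g v t +
        bet U1 J1 A B f C e g t v = 0) → tt J1 C e v.1 j =
        ∑ u : U1, rowU U1 J1 B (Pi.single ⟨j, hj⟩ 1) u *
          ∑ j : J1, Gr (Pi.single u 1) j * tt J1 C e v.1 j := by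
      intro v hv
      have h3 := horth v hv (Pi.single ⟨j, hj⟩ 1 - Gr (rowU U1 J1 B (Pi.single ⟨j, hj⟩ 1))) (by
        rw [map_sub, hGr', sub_self])
      simp only [Pi.sub_apply, sub_mul, Finset.sum_sub_distrib] at h3
      have h4 : ∑ i : J1, (Pi.single (⟨j, hj⟩ : J1) (1 : ZMod 2) : J1 → ZMod 2) i * tt J1 C e v.1 i =
          tt J1 C e v.1 j := by
        have h5 : ∀ i ∈ (univ : Finset J1), (Pi.single (⟨j, hj⟩ : J1) (1 : ZMod 2) : J1 → ZMod 2) i *
            tt J1 C e v.1 i = if i = ⟨j, hj⟩ then tt J1 C e v.1 i else 0 := by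
          intro i _
          rw [Pi.single_apply]
          split_ifs <;> simp
        rw [Finset.sum_congr rfl h5, Finset.sum_ite_eq' univ, if_pos (Finset.mem_univ _)]
      rw [h4] at h3
      rw [sub_eq_zero.1 h3]
      have h6 : ∀ ξ : U1 → ZMod 2, Gr ξ = ∑ u : U1, ξ u • Gr (Pi.single u 1) := by
        intro ξ
        have h7 : ξ = ∑ u : U1, ξ u • (Pi.single u (1 : ZMod 2) : U1 → ZMod 2) := by
          funext i
          rw [Finset.sum_apply]
          have h8 : ∀ u ∈ (univ : Finset U1), (ξ u • (Pi.single u (1 : ZMod 2) : U1 → ZMod 2)) i =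
              if i = u then ξ u else 0 := by
            intro u _
            rw [Pi.smul_apply, Pi.single_apply, smul_eq_mul]
            split_ifs <;> simp
          rw [Finset.sum_congr rfl h8, Finset.sum_ite_eq univ, if_pos (Finset.mem_univ _)]
        conv_lhs => rw [h7]
        rw [map_sum]
        exact Finset.sum_congr rfl fun u _ => by rw [map_smul]
      rw [h6]
      simp only [Finset.sum_apply, Pi.smul_apply, smul_eq_mul, Finset.sum_mul, Finset.mul_sum]
      rw [Finset.sum_comm]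
      exact Finset.sum_congr rfl fun u _ => Finset.sum_congr rfl fun i _ => mul_assoc _ _ _
    rw [key w hw, key w' hw']
    exact Finset.sum_congr rfl fun u _ => by rw [h u]
  -- the count
  set R := univ.filter fun w : ZS U1 J1 A B f => ∀ t, bet U1 J1 A B f C e g w t +
      bet U1 J1 A B f C e g t w = 0 with hR
  set kr := (univ.filter fun y : J → ZMod 2 => (∀ k, k ∉ J1 → y k = 0) ∧
      ∀ k ∈ J1, ∑ l ∈ J1.erase k, (e k l + e l k) * y l = 0) with hkr
  have h1 : R.card ≤ kr.card * (univ : Finset ((U → ZMod 2) × (U1 → ZMod 2))).card := by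
    refine Finset.card_le_mul_card_image_of_maps_to
      (f := fun w : ZS U1 J1 A B f => (w.1.1, fun u : U1 => ∑ j : J1, Gr (Pi.single u 1) j * tt J1 C e w.1 j))
      (fun _ _ => Finset.mem_univ _) kr.card fun x _ => ?_
    rcases (R.filter fun w : ZS U1 J1 A B f => (w.1.1, fun u : U1 => ∑ j : J1,
      Gr (Pi.single u 1) j * tt J1 C e w.1 j) = x).eq_empty_or_nonempty with he | ⟨w₀, hw₀⟩
    · rw [he, Finset.card_empty]
      exact Nat.zero_le _
    obtain ⟨hw₀R, hw₀x⟩ := Finset.mem_filter.1 hw₀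
    have hw₀R := (Finset.mem_filter.1 hw₀R).2
    refine Finset.card_le_card_of_injOn (fun w l => w.1.2 l + w₀.1.2 l) ?_ ?_
    · intro w hw
      obtain ⟨hwR, hwx⟩ := Finset.mem_filter.1 (Finset.mem_coe.1 hw)
      have hwR := (Finset.mem_filter.1 hwR).2
      have hx : w.1.1 = w₀.1.1 := (congrArg Prod.fst hwx).trans (congrArg Prod.fst hw₀x).symm
      have hv : ∀ u : U1, ∑ j : J1, Gr (Pi.single u 1) j * tt J1 C e w.1 j =
          ∑ j : J1, Gr (Pi.single u 1) j * tt J1 C e w₀.1 j := fun u =>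
        congrFun ((congrArg Prod.snd hwx).trans (congrArg Prod.snd hw₀x).symm) u
      refine Finset.mem_coe.2 (Finset.mem_filter.2 ⟨Finset.mem_univ _, fun l hl => ?_, fun j hj => ?_⟩)
      · show w.1.2 l + w₀.1.2 l = 0
        rw [w.2.2.1 l hl, w₀.2.2.1 l hl, add_zero]
      · have h3 := hdet w w₀ hwR hw₀R hv j hj
        unfold tt at h3
        rw [hx] at h3
        have h4 := add_left_cancel h3
        show ∑ l ∈ J1.erase j, (e j l + e l j) * (w.1.2 l + w₀.1.2 l) = 0
        simp only [mul_add (_ + _), Finset.sum_add_distrib]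
        rw [h4]
        exact h2 _
    · intro w hw w' hw' he
      obtain ⟨-, hwx⟩ := Finset.mem_filter.1 (Finset.mem_coe.1 hw)
      obtain ⟨-, hwx'⟩ := Finset.mem_filter.1 (Finset.mem_coe.1 hw')
      have hx : w.1.1 = w'.1.1 := (congrArg Prod.fst hwx).trans (congrArg Prod.fst hwx').symm
      refine Subtype.ext (Prod.ext hx (funext fun l => ?_))
      have h3 : w.1.2 l + w₀.1.2 l = w'.1.2 l + w₀.1.2 l := congrFun he l
      exact add_right_cancel h3
  refine h1.trans (Nat.mul_le_mul_left _ ?_)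
  rw [Finset.card_univ, Fintype.card_prod, Fintype.card_fun, Fintype.card_fun, ZMod.card,
    Fintype.card_coe]
  have h3 : (4 : ℕ) ^ Fintype.card U = 2 ^ Fintype.card U * 2 ^ Fintype.card U := by
    rw [← mul_pow]
    norm_num
  rw [h3]
  exact Nat.mul_le_mul_left _ (Nat.pow_le_pow_right (by norm_num) (Finset.card_le_univ _))

theorem rad_card (U1 : Finset U) (J1 : Finset J) (A : U → U → ZMod 2) (B : U → J → ZMod 2)
    (f : U → ZMod 2) (C : J → U → ZMod 2) (e : J → J → ZMod 2) (g : J → ZMod 2)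
    (hs : Function.Surjective (rowU U1 J1 B)) (R : Finset (ZS U1 J1 A B f))
    (hR : ∀ w ∈ R, ∀ t, bet U1 J1 A B f C e g w t + bet U1 J1 A B f C e g t w = 0) :
    R.card ≤ (univ.filter fun y : J → ZMod 2 => (∀ k, k ∉ J1 → y k = 0) ∧
      ∀ k ∈ J1, ∑ l ∈ J1.erase k, (e k l + e l k) * y l = 0).card * 4 ^ Fintype.card U :=
  (Finset.card_le_card fun w hw => Finset.mem_filter.2 ⟨Finset.mem_univ _, hR w hw⟩).trans
    (rad_card0 U1 J1 A B f C e g hs)

theorem ker_card (U1 : Finset U) (J1 : Finset J) (A : U → U → ZMod 2) (B : U → J → ZMod 2)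
    (f : U → ZMod 2) (K : Finset (ZS U1 J1 A B f)) (hK : ∀ w ∈ K, w.1.2 = 0) :
    K.card ≤ 2 ^ Fintype.card U := by
  have h : (2 : ℕ) ^ Fintype.card U = (univ : Finset (U → ZMod 2)).card := by
    rw [Finset.card_univ, Fintype.card_fun, ZMod.card]
  rw [h]
  refine Finset.card_le_card_of_injOn (fun w => w.1.1) (fun _ _ => Finset.mem_coe.2 (Finset.mem_univ _)) ?_
  intro w hw w' hw' he
  exact Subtype.ext (Prod.ext he ((hK w (Finset.mem_coe.1 hw)).trans (hK w' (Finset.mem_coe.1 hw')).symm))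

end rad

section final
variable {U J : Type} [Fintype U] [Fintype J]

theorem indep_card (V : Type) [AddCommGroup V] [Module (ZMod 2) V] [Finite V] (k : ℕ) :
    (Nat.card {s : Fin k → V // LinearIndependent (ZMod 2) s} : ℝ) = Ik k (Nat.card V : ℝ) := by
  have hfd : Module.Finite (ZMod 2) V := Module.Finite.of_finite
  set n := Module.finrank (ZMod 2) V with hn
  have hV : Nat.card V = 2 ^ n := by
    rw [Module.natCard_eq_pow_finrank (K := ZMod 2) (V := V), Nat.card_zmod]
  unfold Ik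
  rw [hV]
  rcases le_or_gt k n with h | h
  · have h1 := card_linearIndependent (K := ZMod 2) (V := V) h
    simp only [ZMod.card] at h1
    rw [h1, Nat.cast_prod, Finset.prod_range]
    refine Finset.prod_congr rfl fun i _ => ?_
    rw [Nat.cast_sub (Nat.pow_le_pow_right (by norm_num) (i.2.le.trans h))]
    push_cast
    rfl
  · have h1 : IsEmpty {s : Fin k → V // LinearIndependent (ZMod 2) s} := by
      constructor
      rintro ⟨s, hs⟩
      have h2 := hs.fintype_card_le_finrank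
      rw [Fintype.card_fin] at h2
      omega
    rw [Nat.card_of_isEmpty, Nat.cast_zero]
    symm
    refine Finset.prod_eq_zero (Finset.mem_range.2 h) ?_
    push_cast
    ring

/-- the space of the solutions -/
noncomputable def VX [LinearOrder J] (U1 : Finset U) (J1 : Finset J) (A : U → U → ZMod 2) (B : U → J → ZMod 2)
    (C : J → U → ZMod 2) (e : J → J → ZMod 2) (f : U → ZMod 2) (g : J → ZMod 2)
    (α : prs J1 → ZMod 2) : Submodule (ZMod 2) (ZS U1 J1 A B f) where
  carrier := {z | ∀ j ∈ J1, ∑ l, ext α j l * (z.1.2 l + z.1.2 j) = hh C e g z.1 j}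
  zero_mem' := by
    intro j _
    have h1 : hh C e g (0 : (U → ZMod 2) × (J → ZMod 2)) j = 0 := by
      unfold hh
      simp
    show ∑ l, ext α j l * ((0 : ZMod 2) + 0) = hh C e g (0 : (U → ZMod 2) × (J → ZMod 2)) j
    rw [h1]
    simp
  add_mem' := by
    intro z w hz hw j hj
    show ∑ l, ext α j l * ((z.1.2 l + w.1.2 l) + (z.1.2 j + w.1.2 j)) = hh C e g (z.1 + w.1) j
    rw [hh_add, ← hz j hj, ← hw j hj, ← Finset.sum_add_distrib]
    exact Finset.sum_congr rfl fun l _ => by ring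
  smul_mem' := by
    intro c z hz
    rcases z2' c with rfl | rfl
    · rw [zero_smul]
      intro j _
      have h1 : hh C e g (0 : (U → ZMod 2) × (J → ZMod 2)) j = 0 := by
        unfold hh
        simp
      show ∑ l, ext α j l * ((0 : ZMod 2) + 0) = hh C e g (0 : (U → ZMod 2) × (J → ZMod 2)) j
      rw [h1]
      simp
    · rw [one_smul]
      exact hz

theorem card_filter_nat {X : Type} [Fintype X] (p : X → Prop) [DecidablePred p] :
    (univ.filter p).card = Nat.card {x // p x} := by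
  rw [Nat.card_eq_fintype_card, Fintype.card_subtype]

theorem ns_eq (U1 : Finset U) (J1 : Finset J) (A : U → U → ZMod 2) (B : U → J → ZMod 2)
    (C : J → U → ZMod 2) (R : J → J → ZMod 2) (f : U → ZMod 2) (g : J → ZMod 2) :
    ns U1 J1 A B C R f g = Nat.card {z : (U → ZMod 2) × (J → ZMod 2) // SolA U1 J1 A B C R f g z} :=
  card_filter_nat _

theorem card_VX [LinearOrder J] (U1 : Finset U) (J1 : Finset J) (A : U → U → ZMod 2) (B : U → J → ZMod 2)
    (C : J → U → ZMod 2) (e : J → J → ZMod 2) (f : U → ZMod 2) (g : J → ZMod 2)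
    (α : prs J1 → ZMod 2) : ns U1 J1 A B C (fun j l => ext α j l + e j l) f g =
      Nat.card (VX U1 J1 A B C e f g α) := by
  rw [ns_eq]
  have h5 : ∀ p q r s : ZMod 2, p + (q + s) + r = 0 ↔ q = p + r + s := by decide
  have key : ∀ z : (U → ZMod 2) × (J → ZMod 2), ∀ j,
      (∑ u, C j u * (z.1 u + z.2 j) + ∑ l, (ext α j l + e j l) * (z.2 l + z.2 j) + g j * z.2 j = 0) ↔
      ∑ l, ext α j l * (z.2 l + z.2 j) = hh C e g z j := by
    intro z j
    unfold hh
    rw [← h5]
    simp only [add_mul, Finset.sum_add_distrib]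
  refine Nat.card_congr ⟨fun z => ⟨⟨z.1, z.2.1, z.2.2.1, z.2.2.2.1⟩, fun j hj =>
    (key z.1 j).1 (z.2.2.2.2 j hj)⟩, fun z => ⟨z.1.1, z.1.2.1, z.1.2.2.1, z.1.2.2.2, fun j hj =>
    (key z.1.1 j).2 (z.2 j hj)⟩, fun z => rfl, fun z => rfl⟩

/-- the second component -/
noncomputable def ph (U1 : Finset U) (J1 : Finset J) (A : U → U → ZMod 2) (B : U → J → ZMod 2)
    (f : U → ZMod 2) : ZS U1 J1 A B f →ₗ[ZMod 2] (J → ZMod 2) :=
  (LinearMap.snd (ZMod 2) (U → ZMod 2) (J → ZMod 2)).comp (ZS U1 J1 A B f).subtype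

theorem ph_apply (U1 : Finset U) (J1 : Finset J) (A : U → U → ZMod 2) (B : U → J → ZMod 2)
    (f : U → ZMod 2) (z : ZS U1 J1 A B f) : ph U1 J1 A B f z = z.1.2 := rfl

/-- independent tuples of solutions -/
theorem tuples [LinearOrder J] (k : ℕ) (U1 : Finset U) (J1 : Finset J) (A : U → U → ZMod 2) (B : U → J → ZMod 2)
    (C : J → U → ZMod 2) (e : J → J → ZMod 2) (f : U → ZMod 2) (g : J → ZMod 2)
    (hC : ∀ w : U → ZMod 2, (∀ u, u ∉ U1 → w u = 0) → (∃ u, w u ≠ 0) →
      ∃ k ∈ J1, ∑ u, w u * C k u ≠ 0) (α : prs J1 → ZMod 2) :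
    Nat.card {s : Fin k → VX U1 J1 A B C e f g α // LinearIndependent (ZMod 2) s} =
      ((univ.filter fun z : Fin k → ZS U1 J1 A B f =>
        LinearIndependent (ZMod 2) fun i => ph U1 J1 A B f (z i)).filter
        fun z => ∀ i, ∀ j ∈ J1, ∑ l, ext α j l * ((z i).1.2 l + (z i).1.2 j) = hh C e g (z i).1 j).card := by
  rw [← Fintype.card_coe, ← Nat.card_eq_fintype_card]
  have hinj : ∀ z : VX U1 J1 A B C e f g α,
      (ph U1 J1 A B f).comp (VX U1 J1 A B C e f g α).subtype z = 0 → z = 0 := by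
    intro z hz
    have hy : z.1.1.2 = 0 := hz
    have hx : z.1.1.1 = 0 := by
      by_contra hx
      have hx2 : ∃ u, z.1.1.1 u ≠ 0 := by
        by_contra h
        push Not at h
        exact hx (funext h)
      obtain ⟨k, hk, hk2⟩ := hC z.1.1.1 z.1.2.1 hx2
      apply hk2
      have h2 := z.2 k hk
      unfold hh at h2
      rw [hy] at h2
      simp only [Pi.zero_apply, add_zero, mul_zero, Finset.sum_const_zero] at h2
      rw [h2]
      exact Finset.sum_congr rfl fun u _ => mul_comm _ _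
    exact Subtype.ext (Subtype.ext (Prod.ext hx hy))
  refine Nat.card_congr ⟨fun s => ⟨fun i => (s.1 i).1, ?_⟩, fun z => ⟨fun i => ⟨z.1 i, ?_⟩, ?_⟩,
    fun s => rfl, fun z => rfl⟩
  · refine Finset.mem_filter.2 ⟨Finset.mem_filter.2 ⟨Finset.mem_univ _, ?_⟩, fun i => (s.1 i).2⟩
    exact s.2.map' ((ph U1 J1 A B f).comp (VX U1 J1 A B C e f g α).subtype)
      (LinearMap.ker_eq_bot'.2 hinj)
  · exact (Finset.mem_filter.1 z.2).2 i
  · have h1 := (Finset.mem_filter.1 (Finset.mem_filter.1 z.2).1).2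
    exact LinearIndependent.of_comp ((ph U1 J1 A B f).comp (VX U1 J1 A B C e f g α).subtype) h1

/-- Part IK of project GZ. -/
theorem t_IK : Pool.Agent.U79.GZ.S_IK := by
  intro k m n U J _ _ _ U1 J1 A B C e f g hy
  obtain ⟨hne, hB, hC, hker⟩ := hy
  have hs : Function.Surjective (rowU U1 J1 B) :=
    rowU_surj (C := fun k u => B u k) (fun _ _ _ _ => rfl) hB
  obtain ⟨T, hTd⟩ : ∃ T : Finset (Fin k → ZS U1 J1 A B f), T = univ.filter fun z =>
    LinearIndependent (ZMod 2) fun i => ph U1 J1 A B f (z i) := ⟨_, rfl⟩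
  have hT : ∀ z, z ∈ T ↔ LinearIndependent (ZMod 2) fun i => ph U1 J1 A B f (z i) := by
    intro z
    rw [hTd]
    simp only [Finset.mem_filter, Finset.mem_univ, true_and]
  obtain ⟨Q, hQd⟩ : ∃ Q : ℝ, Q = Fintype.card (ZS U1 J1 A B f) := ⟨_, rfl⟩
  have hQ : Q = 2 ^ J1.card := by
    rw [hQd, ← Nat.card_eq_fintype_card, card_ZS U1 J1 A B f hs]
    push_cast
    rfl
  have h1 : ∑ α : prs J1 → ZMod 2, Ik k (ns U1 J1 A B C (fun j l => ext α j l + e j l) f g : ℝ) =
      ∑ z ∈ T, ((univ.filter fun α : prs J1 → ZMod 2 => ∀ i, ∀ j ∈ J1,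
        ∑ l, ext α j l * ((z i).1.2 l + (z i).1.2 j) = hh C e g (z i).1 j).card : ℝ) := by
    have h2 : ∀ α ∈ (univ : Finset (prs J1 → ZMod 2)),
        Ik k (ns U1 J1 A B C (fun j l => ext α j l + e j l) f g : ℝ) =
        ∑ z ∈ T, (if ∀ i, ∀ j ∈ J1,
          ∑ l, ext α j l * ((z i).1.2 l + (z i).1.2 j) = hh C e g (z i).1 j then (1 : ℝ) else 0) := by
      intro α _
      rw [card_VX, ← indep_card, tuples k U1 J1 A B C e f g hC α, ← hTd, Finset.card_filter]
      push_cast
      rfl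
    rw [Finset.sum_congr rfl h2, Finset.sum_comm]
    refine Finset.sum_congr rfl fun z _ => ?_
    rw [Finset.card_filter]
    push_cast
    rfl
  have h2 : (∑ α : prs J1 → ZMod 2, Ik k (ns U1 J1 A B C (fun j l => ext α j l + e j l) f g : ℝ)) *
      Q ^ k = 2 ^ (prs J1).card * ∑ c ∈ Alt k, ∑ z ∈ T, chi (Ex (bet U1 J1 A B f C e g) c z) := by
    rw [h1, Finset.sum_mul, Finset.sum_comm, Finset.mul_sum]
    refine Finset.sum_congr rfl fun z hz => ?_
    have hz := (hT z).1 hz
    have h3 := rows_count hne (fun i => (z i).1.2) (fun i l hl => (z i).2.2.1 l hl) hz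
      (fun i => hh C e g (z i).1)
    rw [hQ, h3]
    congr 1
  have hasm := assemble (bet U1 J1 A B f C e g) (ph U1 J1 A B f) T hT
    (univ.filter fun w => ∀ t, bet U1 J1 A B f C e g w t + bet U1 J1 A B f C e g t w = 0)
    (univ.filter fun w => ph U1 J1 A B f w = 0)
    (fun w hw => Finset.mem_filter.2 ⟨Finset.mem_univ _, hw⟩)
    (fun w hw => Finset.mem_filter.2 ⟨Finset.mem_univ _, hw⟩) Q hQd
  have hRc := rad_card U1 J1 A B f C e g hs
    (univ.filter fun w => ∀ t, bet U1 J1 A B f C e g w t + bet U1 J1 A B f C e g t w = 0)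
    (fun w hw => (Finset.mem_filter.1 hw).2)
  have hKc := ker_card U1 J1 A B f (univ.filter fun w => ph U1 J1 A B f w = 0)
    (fun w hw => (Finset.mem_filter.1 hw).2)
  obtain ⟨r, hr⟩ : ∃ r : ℕ, r = (univ.filter fun w : ZS U1 J1 A B f =>
    ∀ t, bet U1 J1 A B f C e g w t + bet U1 J1 A B f C e g t w = 0).card := ⟨_, rfl⟩
  obtain ⟨κ, hκ⟩ : ∃ κ : ℕ, κ = (univ.filter fun w : ZS U1 J1 A B f => ph U1 J1 A B f w = 0).card :=
    ⟨_, rfl⟩
  rw [← hr, ← hκ] at hasm
  rw [← hr] at hRc
  rw [← hκ] at hKc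
  obtain ⟨S, hS⟩ : ∃ S : ℝ, S = (∑ α : prs J1 → ZMod 2,
    Ik k (ns U1 J1 A B C (fun j l => ext α j l + e j l) f g : ℝ)) / 2 ^ (prs J1).card := ⟨_, rfl⟩
  have hpos : 0 < Q := by rw [hQ]; positivity
  have hQk : 0 < Q ^ k := by positivity
  have hP : (0 : ℝ) < 2 ^ (prs J1).card := by positivity
  have h3 : ∑ c ∈ Alt k, ∑ z ∈ T, chi (Ex (bet U1 J1 A B f C e g) c z) = S * Q ^ k := by
    rw [hS, div_mul_eq_mul_div, h2]
    exact (mul_div_cancel_left₀ _ hP.ne').symm
  rw [h3] at hasm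
  have h4 : |S - 1| * Q ≤ (Alt k).card * ((r : ℝ) + 2 ^ k * κ) := by
    have h5 : |S * Q ^ k - Q ^ k| = |S - 1| * Q ^ k := by
      rw [← sub_one_mul, abs_mul, abs_of_pos hQk]
    rw [h5] at hasm
    have h6 : (|S - 1| * Q) * Q ^ k ≤ ((Alt k).card * ((r : ℝ) + 2 ^ k * κ)) * Q ^ k := by
      calc (|S - 1| * Q) * Q ^ k = |S - 1| * Q ^ k * Q := by ring
        _ ≤ _ := hasm
        _ = _ := by ring
    exact le_of_mul_le_mul_right h6 hQk
  have hRb : (r : ℝ) * 2 ^ n ≤ 2 ^ (J1.card + m) * 4 ^ Fintype.card U := by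
    have h5 : r * 2 ^ n ≤ 2 ^ (J1.card + m) * 4 ^ Fintype.card U := by
      refine (Nat.mul_le_mul_right _ hRc).trans ?_
      have h6 := Nat.mul_le_mul_right (4 ^ Fintype.card U) hker
      refine le_trans (le_of_eq ?_) h6
      ring
    exact_mod_cast h5
  have hA : ((Alt k).card : ℝ) * 2 ^ k ≤ 2 ^ (k ^ 2) := by exact_mod_cast alt_card k
  rw [← hS]
  exact numer hQ (Nat.cast_nonneg _) hA (Nat.cast_nonneg _) h4 hRb (by exact_mod_cast hKc)

end final

end Pool.Agent.U979.GZ
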